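import Pool.Agent.V11151.CrownLC

/-!
# MP_00f856_co: the f-vector of the order polytope of a crown poset is log-concave

`Crown n` is the crown poset `C_{2n}`: its elements are the pairs `(j, b)` with `j : Fin n` and
`b : Bool`; `(j, false)` is the odd element `2j - 1` and `(j, true)` is the even element `2j`, and
the relations are `(j, false) < (j, true)` and `(j + 1, false) < (j, true)` with `j + 1` read
modulo `n`.  `orderPolytope P` is the order polytope of the poset `P`.  A face of a polytope `Q` is
an exposed face (the empty set, or the set of maximisers over `Q` of a linear functional, which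
gives `Q` itself for the zero functional); `fdim F` is its dimension (`-1` for the empty set), and
`fNum Q k` is the number of faces of dimension `k`.

The theorem: for every `n ≥ 1`, `f_{k-1} f_{k+1} ≤ f_k ^ 2` for every integer `k`, where
`f_k = fNum (orderPolytope (Crown n)) k`.
-/

namespace Pool.Agent.Results.MP_00f856_co.CrownLogConcave

open Pool.Agent.V11151.CrownFaces Pool.Agent.V11151.Pyramid

/-- For every `n ≥ 1` the `f`-vector of the order polytope of the crown poset `C_{2n}` is
log-concave. -/
theorem result : ∀ (n : ℕ) [NeZero n] (k : ℤ),
    fNum (orderPolytope (Crown n)) (k - 1) * fNum (orderPolytope (Crown n)) (k + 1) ≤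
      fNum (orderPolytope (Crown n)) k ^ 2 := by
  intro n _ k
  have := Pool.Agent.V11151.CrownLC.crown_slc n k k le_rfl
  rwa [← sq] at this

end Pool.Agent.Results.MP_00f856_co.CrownLogConcave
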